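import Mathlib
import Pool.Agent.H538Z.Defs
import Pool.Agent.H538Z.Edge

set_option autoImplicit false

namespace Pool.Agent.Results.MP_b26ec7_al.AUpperBound

open Pool.Agent.H538Z

/-- The conjecture of Alilooee, Banerjee, Beyarslan and Ha. -/
theorem result :
    ∀ (K : Type) [Field K] (n : ℕ) (G : SimpleGraph (Fin n)), (∃ a b, G.Adj a b) →
      ∀ q : ℕ, 1 ≤ q → (reg (edgeIdeal K G ^ q) : ℤ) ≤ 2 * q + reg (edgeIdeal K G) - 2 := by
  intro K _ n G hG q hq
  have := L2_lt (K := K) hG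
  rw [reg_pow hG hq, reg_one hG]
  omega

end Pool.Agent.Results.MP_b26ec7_al.AUpperBound
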